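import Pool.Agent.N273.BR.Stm

/-!
# Project BR, part LOW: below the critical density
-/

set_option autoImplicit false

open MeasureTheory Filter Set
open scoped Topology ENNReal

namespace Pool.Agent.N478.BR

open Pool.Agent.R528.RM Pool.Agent.N417.SM Pool.Agent.N273.BR

/-! ### the function `LL` -/

lemma log_ge {n : ℕ} (hn : 16 ≤ n) : 2 ≤ Real.log n := by
  have h1 : Real.log 16 ≤ Real.log n := Real.log_le_log (by norm_num) (by exact_mod_cast hn)
  have h2 : Real.log 16 = 4 * Real.log 2 := by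
    rw [show (16 : ℝ) = 2 ^ 4 by norm_num, Real.log_pow]
    norm_num
  have h3 := Real.log_two_gt_d9
  linarith

lemma LL_pos {n : ℕ} (hn : 16 ≤ n) : 0 < LL n := by
  unfold LL
  have h1 := log_ge hn
  have h2 : (0 : ℝ) < n := by exact_mod_cast (by omega : 0 < n)
  exact div_pos (Real.log_pos (by linarith)) (Real.sqrt_pos.2 h2)

lemma LL_succ {n : ℕ} (hn : 16 ≤ n) : LL (n + 1) ≤ 2 * LL n := by
  unfold LL
  have h1 := log_ge hn
  have hn0 : (0 : ℝ) < n := by exact_mod_cast (by omega : 0 < n)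
  have hn2 : (2 : ℝ) ≤ n := by exact_mod_cast (by omega : 2 ≤ n)
  have h2 : Real.log ((n + 1 : ℕ) : ℝ) ≤ Real.log n ^ 2 := by
    have h3 : Real.log ((n + 1 : ℕ) : ℝ) ≤ Real.log ((n : ℝ) ^ 2) := by
      apply Real.log_le_log (by positivity)
      push_cast
      nlinarith
    rw [Real.log_pow] at h3
    push_cast at h3 ⊢
    nlinarith
  have h4 : 0 < Real.log ((n + 1 : ℕ) : ℝ) := Real.log_pos (by push_cast; linarith)
  have h5 : Real.log (Real.log ((n + 1 : ℕ) : ℝ)) ≤ 2 * Real.log (Real.log n) := by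
    have h6 := Real.log_le_log h4 h2
    rw [Real.log_pow] at h6
    exact_mod_cast h6
  have h7 : 0 ≤ Real.log (Real.log n) := Real.log_nonneg (by linarith)
  have h8 : √(n : ℝ) ≤ √((n + 1 : ℕ) : ℝ) := Real.sqrt_le_sqrt (by push_cast; linarith)
  have h9 : 0 < √(n : ℝ) := Real.sqrt_pos.2 hn0
  calc Real.log (Real.log ((n + 1 : ℕ) : ℝ)) / √((n + 1 : ℕ) : ℝ)
      ≤ 2 * Real.log (Real.log n) / √((n + 1 : ℕ) : ℝ) :=
        div_le_div_of_nonneg_right h5 (Real.sqrt_nonneg _)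
    _ ≤ 2 * Real.log (Real.log n) / √(n : ℝ) :=
        div_le_div_of_nonneg_left (by positivity) h9 h8
    _ = 2 * (Real.log (Real.log n) / √(n : ℝ)) := by ring

/-- the clipped density -/
noncomputable def cl (a : ℝ) (n : ℕ) : ℝ := min 1 (max 0 (a * LL n))

lemma cl_nonneg (a : ℝ) (n : ℕ) : 0 ≤ cl a n := le_min zero_le_one (le_max_left _ _)

lemma cl_le (a : ℝ) (n : ℕ) : cl a n ≤ 1 := min_le_left _ _

lemma cl_succ {a : ℝ} (ha : 0 < a) {n : ℕ} (hn : 16 ≤ n) : cl a (n + 1) ≤ 2 * cl a n := by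
  have h1 := LL_succ hn
  have h2 := LL_pos hn
  have h3 : a * LL (n + 1) ≤ 2 * (a * LL n) := by nlinarith
  have h4 : max 0 (a * LL (n + 1)) ≤ 2 * max 0 (a * LL n) := by
    apply max_le
    · positivity
    · exact h3.trans (mul_le_mul_of_nonneg_left (le_max_right _ _) (by norm_num))
  unfold cl
  rcases le_total 1 (max 0 (a * LL n)) with h | h
  · rw [min_eq_left h]
    have := min_le_left 1 (max 0 (a * LL (n + 1)))
    linarith
  · rw [min_eq_right h]
    exact (min_le_right _ _).trans h4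

lemma wt_eq (b : ℝ) (k : ℕ) : wt b k = ∏ i ∈ Finset.range (2 * k), (1 - cl b (k ^ 2 + i)) := rfl

lemma wt_nonneg (b : ℝ) (k : ℕ) : 0 ≤ wt b k := by
  rw [wt_eq]
  exact Finset.prod_nonneg fun i _ => by linarith [cl_le b (k ^ 2 + i)]

lemma wt_le (b : ℝ) (k : ℕ) : wt b k ≤ 1 := by
  rw [wt_eq]
  exact Finset.prod_le_one (fun i _ => by linarith [cl_le b (k ^ 2 + i)])
    (fun i _ => by linarith [cl_nonneg b (k ^ 2 + i)])

/-! ### divergent series -/

lemma div_mono {f g : ℕ → ℝ} (h : ∀ᶠ k in atTop, f k ≤ g k)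
    (hf : Tendsto (fun n : ℕ => ∑ k ∈ Finset.range n, f k) atTop atTop) :
    Tendsto (fun n : ℕ => ∑ k ∈ Finset.range n, g k) atTop atTop := by
  obtain ⟨N, hN⟩ := eventually_atTop.1 h
  refine tendsto_atTop_mono' atTop ?_
    (tendsto_atTop_add_const_right atTop (∑ k ∈ Finset.range N, (g k - f k)) hf)
  filter_upwards [eventually_ge_atTop N] with n hn
  have h1 : ∑ k ∈ Finset.range N, (g k - f k) ≤ ∑ k ∈ Finset.range n, (g k - f k) := by
    apply Finset.sum_le_sum_of_subset_of_nonneg (Finset.range_mono hn)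
    intro k _ hk
    rw [Finset.mem_range, not_lt] at hk
    linarith [hN k hk]
  have h2 : ∑ k ∈ Finset.range n, (g k - f k) =
      ∑ k ∈ Finset.range n, g k - ∑ k ∈ Finset.range n, f k := Finset.sum_sub_distrib _ _
  linarith

lemma div_shift {f : ℕ → ℝ} : Tendsto (fun n : ℕ => ∑ k ∈ Finset.range n, f (k + 1)) atTop atTop ↔
    Tendsto (fun n : ℕ => ∑ k ∈ Finset.range n, f k) atTop atTop := by
  have h1 : (fun n : ℕ => ∑ k ∈ Finset.range (n + 1), f k) =
      fun n : ℕ => ∑ k ∈ Finset.range n, f (k + 1) + f 0 := by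
    funext n
    rw [Finset.sum_range_succ']
  rw [← tendsto_add_atTop_iff_nat (f := fun n : ℕ => ∑ k ∈ Finset.range n, f k) 1, h1]
  constructor
  · intro h
    exact tendsto_atTop_add_const_right atTop (f 0) h
  · intro h
    have := tendsto_atTop_add_const_right atTop (-f 0) h
    simpa using this

/-! ### conditional expectations -/

lemma condexp_ge {Ω : Type} {m0 : MeasurableSpace Ω} {μ : Measure Ω} [IsProbabilityMeasure μ]
    {m : MeasurableSpace Ω} (hm : m ≤ m0) {D B : Set Ω} (hD : MeasurableSet[m0] D)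
    (hB : MeasurableSet[m] B) (c : ℝ)
    (h : ∀ C, MeasurableSet[m] C → c * μ.real (C ∩ B) ≤ μ.real (C ∩ D)) :
    ∀ᵐ ω ∂μ, c * B.indicator (fun _ => (1 : ℝ)) ω ≤ (μ[D.indicator (fun _ => (1 : ℝ)) | m]) ω := by
  set f : Ω → ℝ := fun ω => c * B.indicator (fun _ => (1 : ℝ)) ω with hf
  have hfm : StronglyMeasurable[m] f :=
    ((@stronglyMeasurable_const _ _ m _ (1 : ℝ)).indicator hB).const_mul c
  have hDi : Integrable (D.indicator (fun _ => (1 : ℝ))) μ := (integrable_const _).indicator hD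
  have hBi : Integrable (B.indicator (fun _ => (1 : ℝ))) μ := (integrable_const _).indicator (hm _ hB)
  have hfi : Integrable f μ := hBi.const_mul c
  have hgm : StronglyMeasurable[m] (μ[D.indicator (fun _ => (1 : ℝ)) | m]) := stronglyMeasurable_condExp
  have key : f ≤ᵐ[μ.trim hm] μ[D.indicator (fun _ => (1 : ℝ)) | m] := by
    apply ae_le_of_forall_setIntegral_le (hfi.trim hm hfm) (integrable_condExp.trim hm hgm)
    intro C hC _
    rw [← setIntegral_trim hm hfm hC, ← setIntegral_trim hm hgm hC,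
      setIntegral_condExp hm hDi hC]
    have e1 : ∫ ω in C, f ω ∂μ = c * μ.real (C ∩ B) := by
      rw [hf]
      rw [integral_const_mul, setIntegral_indicator (hm _ hB), setIntegral_const, smul_eq_mul, mul_one]
    have e2 : ∫ ω in C, D.indicator (fun _ => (1 : ℝ)) ω ∂μ = μ.real (C ∩ D) := by
      rw [setIntegral_indicator hD, setIntegral_const, smul_eq_mul, mul_one]
    rw [e1, e2]
    exact h C hC
  exact ae_le_of_ae_le_trim key

theorem low_of (hW : Pool.Agent.N273.BR.WLV) (hD : Pool.Agent.N273.BR.DIV) :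
    Pool.Agent.N273.BR.LOW := by
  intro Ω m0 μ _ ℱ A hA a b ha hb hden
  -- `0 < b`
  have hab : a ≤ b := by
    obtain ⟨ω, hω⟩ := hden.exists
    obtain ⟨n, hn, hn1, hn2⟩ := ((eventually_ge_atTop 16).and hω).exists
    have h1 := LL_pos hn
    have h2 : a * LL n ≤ b * LL n := hn1.trans hn2
    exact le_of_mul_le_mul_right h2 h1
  have hb0 : 0 ≤ b := by linarith
  have h01 : ∀ᵐ ω ∂μ, ∀ k, 0 ≤ dens μ ℱ A k ω ∧ dens μ ℱ A k ω ≤ 1 := by
    rw [ae_all_iff]
    exact fun k => dens01 hA k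
  have hE : ∀ᵐ ω ∂μ, ∀ᶠ n : ℕ in atTop, cl a n ≤ dens μ ℱ A n ω ∧ dens μ ℱ A n ω ≤ cl b n := by
    filter_upwards [hden, h01] with ω h1 h2
    filter_upwards [h1] with n hn
    exact ⟨(min_le_right _ _).trans (max_le (h2 n).1 hn.1),
      le_min (h2 n).2 (hn.2.trans (le_max_right _ _))⟩
  -- Step A
  have hA1 : ∀ᵐ ω ∂μ, Tendsto (fun n : ℕ => ∑ k ∈ Finset.range n,
      wt b k * cl a k * (A k).indicator (fun _ => (1 : ℝ)) ω) atTop atTop := by
    filter_upwards [hW (μ := μ) (ℱ := ℱ) A hA (fun k => wt b (k + 1) * cl a (k + 1)) (fun k =>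
      ⟨mul_nonneg (wt_nonneg _ _) (cl_nonneg _ _), mul_le_one₀ (wt_le _ _) (cl_nonneg _ _) (cl_le _ _)⟩),
      hE] with ω h1 h2
    rw [← div_shift]
    refine h1.2 ?_
    have h3 : Tendsto (fun n : ℕ => ∑ k ∈ Finset.range n,
        (1 / 2 : ℝ) * (wt b (k + 1) * cl a (k + 1) ^ 2)) atTop atTop := by
      have h4 := (div_shift (f := fun k => wt b k * cl a k ^ 2)).2 (hD a b ha hb0 hb)
      have h5 := h4.const_mul_atTop (show (0 : ℝ) < 1 / 2 by norm_num)
      simpa only [Finset.mul_sum] using h5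
    refine div_mono ?_ h3
    filter_upwards [h2, eventually_ge_atTop 16] with k hk hk16
    have h6 := cl_succ ha hk16
    have h7 : cl a (k + 1) / 2 ≤ dens μ ℱ A k ω := by linarith [hk.1]
    have h8 : 0 ≤ wt b (k + 1) * cl a (k + 1) := mul_nonneg (wt_nonneg _ _) (cl_nonneg _ _)
    calc (1 / 2 : ℝ) * (wt b (k + 1) * cl a (k + 1) ^ 2)
        = wt b (k + 1) * cl a (k + 1) * (cl a (k + 1) / 2) := by ring
      _ ≤ wt b (k + 1) * cl a (k + 1) * dens μ ℱ A k ω := mul_le_mul_of_nonneg_left h7 h8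
  -- Step B
  have hB1 : ∀ᵐ ω ∂μ, Tendsto (fun n : ℕ => ∑ k ∈ Finset.range n,
      wt b k * (A k ∩ A (k + 1)).indicator (fun _ => (1 : ℝ)) ω) atTop atTop := by
    set s : ℕ → Set Ω := fun n => if n = 0 then ∅ else A (n - 1) ∩ A n with hs
    have hsm : ∀ n, MeasurableSet[ℱ n] (s n) := by
      intro n
      rw [hs]
      dsimp only
      split_ifs with h
      · exact @MeasurableSet.empty _ (ℱ n)
      · exact (ℱ.mono (by omega) _ (hA (n - 1))).inter (hA n)
    have hss : ∀ k, s (k + 1) = A k ∩ A (k + 1) := by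
      intro k
      simp [hs]
    have hce : ∀ᵐ ω ∂μ, ∀ k, (μ[(s (k + 1)).indicator (fun _ => (1 : ℝ)) | ℱ k]) ω =
        (A k).indicator (dens μ ℱ A k) ω := by
      rw [ae_all_iff]
      intro k
      have h1 : (s (k + 1)).indicator (fun _ => (1 : ℝ)) =
          (A k).indicator ((A (k + 1)).indicator (fun _ => (1 : ℝ))) := by
        rw [hss, Set.indicator_indicator]
      rw [h1]
      exact condExp_indicator ((integrable_const _).indicator (ℱ.le _ _ (hA _))) (hA k)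
    filter_upwards [hW (μ := μ) (ℱ := ℱ) s hsm (wt b) (fun k => ⟨wt_nonneg _ _, wt_le _ _⟩), hce, hE,
      hA1] with ω h1 h2 h3 h4
    simp only [hss] at h1
    refine h1.2 ?_
    refine div_mono ?_ h4
    filter_upwards [h3] with k hk
    have h5 := h2 k
    rw [hss] at h5
    rw [h5]
    by_cases hω : ω ∈ A k
    · rw [Set.indicator_of_mem hω, Set.indicator_of_mem hω, mul_one]
      exact mul_le_mul_of_nonneg_left hk.1 (wt_nonneg _ _)
    · rw [Set.indicator_of_notMem hω, Set.indicator_of_notMem hω, mul_zero, mul_zero]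
  -- Step C
  set 𝒢 : Filtration ℕ m0 := ⟨fun k => ℱ (k ^ 2), fun i j hij => ℱ.mono (Nat.pow_le_pow_left hij 2),
    fun k => ℱ.le _⟩ with h𝒢
  set V : ℕ → Set Ω := fun n => {ω | ¬ dens μ ℱ A n ω ≤ cl b n} with hVd
  have hV : ∀ n, MeasurableSet[ℱ n] (V n) := by
    intro n
    have : MeasurableSet {x : ℝ | ¬ x ≤ cl b n} := measurableSet_Iic.compl
    exact (dens_meas (μ := μ) n).measurable this
  set D : ℕ → Set Ω := fun k => if k < 2 then ∅ else
    (A k ∩ A (k + 1)) ∩ (NE A (k ^ 2) (2 * k) ∪ VX V (k ^ 2) (2 * k)) with hDd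
  have hD2 : ∀ k, 2 ≤ k → D k = (A k ∩ A (k + 1)) ∩ (NE A (k ^ 2) (2 * k) ∪ VX V (k ^ 2) (2 * k)) := by
    intro k hk
    rw [hDd]
    exact if_neg (by omega)
  set s : ℕ → Set Ω := fun n => if n = 0 then ∅ else D (n - 1) with hs
  have hss : ∀ k, s (k + 1) = D k := by
    intro k
    simp [hs]
  have hABm : ∀ k, 2 ≤ k → MeasurableSet[ℱ (k ^ 2)] (A k ∩ A (k + 1)) := by
    intro k hk
    exact (ℱ.mono (by nlinarith) _ (hA k)).inter (ℱ.mono (by nlinarith) _ (hA (k + 1)))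
  have hDm : ∀ k, MeasurableSet[ℱ ((k + 1) ^ 2)] (D k) := by
    intro k
    by_cases hk : k < 2
    · have : D k = ∅ := by rw [hDd]; exact if_pos hk
      rw [this]
      exact @MeasurableSet.empty _ (ℱ ((k + 1) ^ 2))
    · rw [hD2 k (by omega)]
      have h1 : k ^ 2 + 2 * k ≤ (k + 1) ^ 2 := by nlinarith
      exact (ℱ.mono (by nlinarith) _ (hABm k (by omega))).inter
        ((ℱ.mono h1 _ (NE_meas hA _ _)).union (ℱ.mono h1 _ (VX_meas' hV _ _)))
  have hsm : ∀ n, MeasurableSet[𝒢 n] (s n) := by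
    intro n
    cases n with
    | zero =>
      have : s 0 = ∅ := by simp [hs]
      rw [this]
      exact @MeasurableSet.empty _ (𝒢 0)
    | succ k =>
      rw [hss]
      exact hDm k
  have hce : ∀ᵐ ω ∂μ, ∀ k, 2 ≤ k → wt b k * (A k ∩ A (k + 1)).indicator (fun _ => (1 : ℝ)) ω ≤
      (μ[(s (k + 1)).indicator (1 : Ω → ℝ) | 𝒢 k]) ω := by
    rw [ae_all_iff]
    intro k
    by_cases hk : 2 ≤ k
    · have h1 : ∀ᵐ ω ∂μ, wt b k * (A k ∩ A (k + 1)).indicator (fun _ => (1 : ℝ)) ω ≤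
          (μ[(D k).indicator (fun _ => (1 : ℝ)) | ℱ (k ^ 2)]) ω := by
        apply condexp_ge (ℱ.le _) (ℱ.le _ _ (hDm k)) (hABm k hk)
        intro C hC
        have h2 := ne_ge (μ := μ) hA (cl_nonneg b) (cl_le b) hV (fun n ω h => not_not.1 h) (k ^ 2)
          (2 * k) (hC.inter (hABm k hk))
        have h7 : C ∩ D k = C ∩ (A k ∩ A (k + 1)) ∩ (NE A (k ^ 2) (2 * k) ∪ VX V (k ^ 2) (2 * k)) := by
          rw [hD2 k hk, Set.inter_assoc C (A k ∩ A (k + 1))]
        rw [h7]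
        exact h2
      filter_upwards [h1] with ω hω _
      rw [hss]
      exact hω
    · exact Eventually.of_forall fun ω h => absurd h hk
  filter_upwards [ae_mem_limsup_atTop_iff (μ := μ) (ℱ := 𝒢) (s := s) hsm, hce, hB1, hE] with ω h1 h2 h3 h4
  have h5 : ω ∈ limsup s atTop := by
    rw [h1]
    refine div_mono ?_ h3
    filter_upwards [eventually_ge_atTop 2] with k hk
    exact h2 k hk
  rw [mem_limsup_iff_frequently_mem] at h5
  obtain ⟨n₀, hn₀⟩ := eventually_atTop.1 h4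
  rw [frequently_atTop]
  intro N
  obtain ⟨n, hn, hns⟩ := (frequently_atTop.1 h5) (max (N + 1) (max (n₀ + 1) 3))
  have hn1 : N + 1 ≤ n := (le_max_left _ _).trans hn
  have hn2 : n₀ + 1 ≤ n := ((le_max_left _ _).trans (le_max_right _ _)).trans hn
  have hn3 : 3 ≤ n := ((le_max_right _ _).trans (le_max_right _ _)).trans hn
  obtain ⟨k, rfl⟩ : ∃ k, n = k + 1 := ⟨n - 1, by omega⟩
  rw [hss, hD2 k (by omega)] at hns
  refine ⟨k, by omega, hns.1.1, hns.1.2, ?_⟩
  rcases hns.2 with h6 | ⟨r, hr1, hr2, hr3⟩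
  · intro r hr hr'
    exact h6 r hr (by nlinarith)
  · exfalso
    apply hr3
    refine (hn₀ r ?_).2
    have : k ≤ k ^ 2 := by nlinarith
    omega

end Pool.Agent.N478.BR
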